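import Mathlib

/-!
# MP_ef18bd_co: upper minus versus upper signed domination in cubic graphs (partial results)
-/

namespace Pool.Agent.Results.MP_ef18bd_co.CubicMinusSigned

open Finset

section Defs

variable {V : Type} [Fintype V] [DecidableEq V]

/-- Closed neighbourhood `N[v]`. -/
def nb (G : SimpleGraph V) [DecidableRel G.Adj] (v : V) : Finset V :=
  insert v (G.neighborFinset v)

/-- Weight `w(f) = f(V)`. -/
def weight (f : V → ℤ) : ℤ := ∑ v, f v

/-- Minus dominating function. -/
def MinusDom (G : SimpleGraph V) [DecidableRel G.Adj] (f : V → ℤ) : Prop :=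
  (∀ v, f v = -1 ∨ f v = 0 ∨ f v = 1) ∧ ∀ v, 1 ≤ ∑ u ∈ nb G v, f u

/-- Signed dominating function. -/
def SignedDom (G : SimpleGraph V) [DecidableRel G.Adj] (f : V → ℤ) : Prop :=
  (∀ v, f v = -1 ∨ f v = 1) ∧ ∀ v, 1 ≤ ∑ u ∈ nb G v, f u

/-- `f` has the property `P` and no `g ≠ f` with `g ≤ f` pointwise has it. -/
def IsMinimal (P : (V → ℤ) → Prop) (f : V → ℤ) : Prop :=
  P f ∧ ∀ g, P g → (∀ v, g v ≤ f v) → g = f

/-- Cubic graph: every vertex has degree 3. -/
def Cubic (G : SimpleGraph V) [DecidableRel G.Adj] : Prop := ∀ v, G.degree v = 3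

end Defs

section Lemmas

variable {V : Type} [Fintype V] [DecidableEq V] {G : SimpleGraph V} [DecidableRel G.Adj]

lemma mem_nb {u v : V} : u ∈ nb G v ↔ u = v ∨ G.Adj v u := by
  simp [nb]

lemma mem_nb_comm {u v : V} : u ∈ nb G v ↔ v ∈ nb G u := by
  rw [mem_nb, mem_nb]
  constructor
  · rintro (h | h)
    · exact Or.inl h.symm
    · exact Or.inr h.symm
  · rintro (h | h)
    · exact Or.inl h.symm
    · exact Or.inr h.symm

lemma self_mem_nb (v : V) : v ∈ nb G v := by simp [nb]

lemma card_nb (hG : Cubic G) (v : V) : (nb G v).card = 4 := by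
  have h1 : v ∉ G.neighborFinset v := by simp
  rw [nb, Finset.card_insert_of_notMem h1, SimpleGraph.card_neighborFinset_eq_degree, hG v]

/-- In a minimal minus dominating function every vertex of value `≠ -1` has a vertex of
closed-neighbourhood sum exactly 1 in its closed neighbourhood. -/
lemma exists_tight {f : V → ℤ} (hf : IsMinimal (MinusDom G) f) {u : V} (hu : f u ≠ -1) :
    ∃ v ∈ nb G u, ∑ x ∈ nb G v, f x = 1 := by
  by_contra hcon
  push Not at hcon
  have hsum : ∀ v ∈ nb G u, 2 ≤ ∑ x ∈ nb G v, f x := by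
    intro v hv
    have h1 := hf.1.2 v
    have h2 := hcon v hv
    omega
  set g : V → ℤ := Function.update f u (f u - 1) with hg
  have hle : ∀ v, g v ≤ f v := by
    intro v
    by_cases hv : v = u
    · subst hv; simp [hg]
    · simp [hg, hv]
  have hgm : MinusDom G g := by
    refine ⟨?_, ?_⟩
    · intro v
      by_cases hv : v = u
      · subst hv
        rcases hf.1.1 v with h | h | h
        · exact absurd h hu
        · left; simp [hg, h]
        · right; left; simp [hg, h]
      · simpa [hg, hv] using hf.1.1 v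
    · intro v
      by_cases hv : u ∈ nb G v
      · have h2 := hsum v (mem_nb_comm.1 hv)
        have : ∑ x ∈ nb G v, g x = ∑ x ∈ nb G v, f x - 1 := by
          rw [hg, Finset.sum_update_of_mem hv, ← Finset.add_sum_erase _ f hv,
            Finset.sdiff_singleton_eq_erase]
          ring
        omega
      · have : ∑ x ∈ nb G v, g x = ∑ x ∈ nb G v, f x := by
          rw [hg, Finset.sum_update_of_notMem hv]
        rw [this]
        exact hf.1.2 v
  have := hf.2 g hgm hle
  have h3 : g u = f u := by rw [this]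
  simp [hg] at h3

/-- Criterion for minimality of a signed dominating function. -/
lemma signed_minimal {h : V → ℤ} (hs : SignedDom G h)
    (ht : ∀ u, h u = 1 → ∃ v ∈ nb G u, ∑ x ∈ nb G v, h x ≤ 2) :
    IsMinimal (SignedDom G) h := by
  refine ⟨hs, ?_⟩
  intro g hg hle
  by_contra hne
  have : ∃ u, g u ≠ h u := by
    by_contra hc
    push Not at hc
    exact hne (funext hc)
  obtain ⟨u, hu⟩ := this
  have h1 : g u = -1 ∧ h u = 1 := by
    have h2 := hle u
    rcases hg.1 u with h3 | h3 <;> rcases hs.1 u with h4 | h4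
    · exact absurd (h3.trans h4.symm) hu
    · exact ⟨h3, h4⟩
    · omega
    · exact absurd (h3.trans h4.symm) hu
  obtain ⟨v, hv, hv2⟩ := ht u h1.2
  have huv : u ∈ nb G v := mem_nb_comm.1 hv
  have h5 := hg.2 v
  have h6 : ∑ x ∈ nb G v, g x ≤ ∑ x ∈ nb G v, h x - 2 := by
    rw [← Finset.add_sum_erase _ g huv, ← Finset.add_sum_erase _ h huv, h1.1, h1.2]
    have : ∑ x ∈ (nb G v).erase u, g x ≤ ∑ x ∈ (nb G v).erase u, h x :=
      Finset.sum_le_sum (fun x _ => hle x)
    omega
  omega

/-- The signed function attached to a set: `-1` on `Q`, `1` elsewhere. -/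
def sg (Q : Finset V) : V → ℤ := fun v => if v ∈ Q then -1 else 1

omit [Fintype V] in
lemma sum_sg (Q A : Finset V) : ∑ x ∈ A, sg Q x = A.card - 2 * (A ∩ Q).card := by
  have h1 : ∀ x, sg Q x = 1 - 2 * (if x ∈ Q then (1 : ℤ) else 0) := by
    intro x
    by_cases hx : x ∈ Q <;> simp [sg, hx]
  simp only [h1]
  rw [Finset.sum_sub_distrib, ← Finset.mul_sum, Finset.sum_ite_mem]
  simp

lemma sg_minimal (hG : Cubic G) (Q : Finset V) (hp : ∀ v, (nb G v ∩ Q).card ≤ 1)
    (hm : ∀ u, u ∉ Q → ∃ v ∈ nb G u, ∃ q ∈ Q, q ∈ nb G v) :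
    IsMinimal (SignedDom G) (sg Q) := by
  apply signed_minimal
  · refine ⟨?_, ?_⟩
    · intro v
      by_cases hv : v ∈ Q <;> simp [sg, hv]
    · intro v
      rw [sum_sg, card_nb hG]
      have := hp v
      push_cast
      omega
  · intro u hu
    have hu2 : u ∉ Q := by
      intro h
      simp [sg, h] at hu
    obtain ⟨v, hv, q, hq, hqv⟩ := hm u hu2
    refine ⟨v, hv, ?_⟩
    rw [sum_sg, card_nb hG]
    have : 0 < (nb G v ∩ Q).card := Finset.card_pos.2 ⟨q, Finset.mem_inter.2 ⟨hqv, hq⟩⟩
    push_cast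
    omega

lemma four_card_le (hG : Cubic G) (Q : Finset V) (hp : ∀ v, (nb G v ∩ Q).card ≤ 1) :
    4 * Q.card ≤ Fintype.card V := by
  have h1 : ∑ v : V, (nb G v ∩ Q).card = 4 * Q.card := by
    have h2 : ∀ v, (nb G v ∩ Q).card = ∑ q ∈ Q, if q ∈ nb G v then 1 else 0 := by
      intro v
      rw [Finset.inter_comm, ← Finset.filter_mem_eq_inter, Finset.card_filter]
    simp only [h2]
    rw [Finset.sum_comm]
    have h3 : ∀ q ∈ Q, (∑ v : V, if q ∈ nb G v then 1 else 0) = 4 := by
      intro q _
      have h4 : (∑ v : V, if q ∈ nb G v then 1 else 0) = ∑ v : V, if v ∈ nb G q then 1 else 0 := by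
        apply Finset.sum_congr rfl
        intro v _
        simp only [mem_nb_comm (G := G) (u := q) (v := v)]
      rw [h4, ← Finset.card_filter, Finset.filter_mem_eq_inter, Finset.univ_inter, card_nb hG]
    rw [Finset.sum_congr rfl h3]
    simp [mul_comm]
  calc 4 * Q.card = ∑ v : V, (nb G v ∩ Q).card := h1.symm
    _ ≤ ∑ _v : V, 1 := Finset.sum_le_sum (fun v _ => hp v)
    _ = Fintype.card V := by simp

lemma exists_max_packing (G : SimpleGraph V) [DecidableRel G.Adj] :
    ∃ Q : Finset V, (∀ v, (nb G v ∩ Q).card ≤ 1) ∧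
      ∀ u, u ∉ Q → ∃ v ∈ nb G u, ∃ q ∈ Q, q ∈ nb G v := by
  classical
  set S : Finset (Finset V) := univ.filter (fun Q => ∀ v, (nb G v ∩ Q).card ≤ 1) with hS
  have hne : S.Nonempty := ⟨∅, by simp [hS]⟩
  obtain ⟨Q, hQ, hmax⟩ := S.exists_max_image Finset.card hne
  have hQ2 : ∀ v, (nb G v ∩ Q).card ≤ 1 := by
    simpa [hS] using hQ
  refine ⟨Q, hQ2, ?_⟩
  intro u hu
  by_contra hcon
  push Not at hcon
  have : insert u Q ∈ S := by
    simp only [hS, Finset.mem_filter, Finset.mem_univ, true_and]
    intro v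
    by_cases huv : u ∈ nb G v
    · have h1 : nb G v ∩ insert u Q ⊆ {u} := by
        intro x hx
        rw [Finset.mem_inter, Finset.mem_insert] at hx
        rcases hx.2 with h | h
        · simp [h]
        · exact absurd hx.1 (hcon v (mem_nb_comm.1 huv) x h)
      simpa using Finset.card_le_card h1
    · rw [Finset.inter_insert_of_notMem huv]
      exact hQ2 v
  have h2 := hmax _ this
  rw [Finset.card_insert_of_notMem hu] at h2
  omega

lemma weight_sg (Q : Finset V) : weight (sg Q) = Fintype.card V - 2 * Q.card := by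
  have := sum_sg Q (univ : Finset V)
  rw [Finset.univ_inter] at this
  simpa [weight] using this

/-- There is always a minimal signed dominating function of weight at least `n/2`. -/
lemma exists_signed_half (hG : Cubic G) :
    ∃ h, IsMinimal (SignedDom G) h ∧ (Fintype.card V : ℤ) ≤ 2 * weight h := by
  obtain ⟨Q, h1, h2⟩ := exists_max_packing G
  refine ⟨sg Q, sg_minimal hG Q h1 h2, ?_⟩
  rw [weight_sg]
  have := four_card_le hG Q h1
  omega

/-- **Criterion.** Let `f` be a minimal minus dominating function of a cubic graph and let `Q` be a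
maximal 2-packing containing all vertices of value `-1`. If every vertex `u` of value 1 in the
closed neighbourhood of a vertex of `Q` of value `≠ -1` lies in a closed neighbourhood `N[v]`
(`v ∈ N[u]`) with `f(N[v]) = 1` and without the value `-1`, then `w(f) ≤ n - 2|Q|`. -/
lemma crit (hG : Cubic G) {f : V → ℤ} (hf : IsMinimal (MinusDom G) f) (Q : Finset V)
    (hMQ : ∀ x, f x = -1 → x ∈ Q)
    (hp : ∀ v, (nb G v ∩ Q).card ≤ 1)
    (hL : ∀ q ∈ Q, f q ≠ -1 → ∀ u ∈ nb G q, f u = 1 →
      ∃ v ∈ nb G u, (∑ x ∈ nb G v, f x = 1) ∧ ∀ x ∈ nb G v, f x ≠ -1) :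
    weight f ≤ weight (sg Q) := by
  classical
  set Z : Finset V := univ.filter (fun v => f v = 0) with hZ
  set O : Finset V := univ.filter (fun v => f v = 1) with hO
  set M : Finset V := univ.filter (fun v => f v = -1) with hM
  have hval : ∀ v, f v ≠ -1 → f v = 0 ∨ f v = 1 := fun v h0 => by
    rcases hf.1.1 v with h | h | h
    · exact absurd h h0
    · exact Or.inl h
    · exact Or.inr h
  have hsumA : ∀ A : Finset V, (∀ x ∈ A, f x ≠ -1) → ∑ x ∈ A, f x = ((A ∩ O).card : ℤ) := by
    intro A hA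
    have h1 : ∀ x ∈ A, f x = if x ∈ O then (1 : ℤ) else 0 := by
      intro x hx
      rcases hval x (hA x hx) with h | h
      · simp [hO, h]
      · simp [hO, h]
    rw [Finset.sum_congr rfl h1, Finset.sum_ite_mem]
    simp
  -- the weight of `f`
  have hw : weight f = (Fintype.card V : ℤ) - Z.card - 2 * M.card := by
    have h1 : ∀ x, f x = 1 - (if x ∈ Z then (1 : ℤ) else 0) - 2 * (if x ∈ M then (1 : ℤ) else 0) := by
      intro x
      rcases hf.1.1 x with h | h | h
      · simp [hZ, hM, h]
      · simp [hZ, hM, h]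
      · simp [hZ, hM, h]
    have h2 : weight f = ∑ x : V, (1 - (if x ∈ Z then (1 : ℤ) else 0)
        - 2 * (if x ∈ M then (1 : ℤ) else 0)) := Finset.sum_congr rfl (fun x _ => h1 x)
    rw [h2, Finset.sum_sub_distrib, Finset.sum_sub_distrib, ← Finset.mul_sum,
      Finset.sum_ite_mem, Finset.sum_ite_mem]
    simp
  set P : Finset V := Q \ M with hP
  have hMsub : M ⊆ Q := by
    intro x hx
    simp only [hM, Finset.mem_filter, Finset.mem_univ, true_and] at hx
    exact hMQ x hx
  have hQcard : Q.card = P.card + M.card := by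
    rw [hP]
    exact (Finset.card_sdiff_add_card_eq_card hMsub).symm
  have hPf : ∀ q ∈ P, q ∈ Q ∧ f q ≠ -1 := by
    intro q hq
    rw [hP, Finset.mem_sdiff] at hq
    refine ⟨hq.1, fun h => hq.2 ?_⟩
    simp [hM, h]
  set X : Finset V := P.biUnion (fun q => nb G q) with hX
  have hXcard : X.card = 4 * P.card := by
    rw [hX, Finset.card_biUnion]
    · rw [Finset.sum_congr rfl (fun q _ => card_nb hG q)]
      simp [mul_comm]
    · intro a ha b hb hab
      rw [Function.onFun, Finset.disjoint_left]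
      intro x hxa hxb
      have h1 : a ∈ nb G x ∩ Q := Finset.mem_inter.2 ⟨mem_nb_comm.1 hxa, (hPf a ha).1⟩
      have h2 : b ∈ nb G x ∩ Q := Finset.mem_inter.2 ⟨mem_nb_comm.1 hxb, (hPf b hb).1⟩
      exact hab (Finset.card_le_one.1 (hp x) a h1 b h2)
  have hXval : ∀ x ∈ X, f x ≠ -1 := by
    intro x hx hx1
    rw [hX, Finset.mem_biUnion] at hx
    obtain ⟨q, hq, hxq⟩ := hx
    have h1 : x ∈ nb G q ∩ Q := Finset.mem_inter.2 ⟨hxq, hMQ x hx1⟩
    have h2 : q ∈ nb G q ∩ Q := Finset.mem_inter.2 ⟨self_mem_nb q, (hPf q hq).1⟩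
    have h3 := Finset.card_le_one.1 (hp q) x h1 q h2
    exact (hPf q hq).2 (h3 ▸ hx1)
  -- charges
  let k : V → ℕ := fun w => (G.neighborFinset w ∩ O).card
  let c : V → V → ℕ := fun w u => if u ∈ G.neighborFinset w then (if k w = 1 then 3 else 1) else 0
  have hout : ∀ w, ∑ u ∈ O, c w u ≤ 3 := by
    intro w
    have h1 : ∑ u ∈ O, c w u = k w * (if k w = 1 then 3 else 1) := by
      simp only [c, k]
      rw [Finset.sum_ite_mem, Finset.sum_const, smul_eq_mul, Finset.inter_comm]
    have h2 : k w ≤ 3 := by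
      calc k w ≤ (G.neighborFinset w).card := Finset.card_le_card Finset.inter_subset_left
        _ = 3 := by rw [SimpleGraph.card_neighborFinset_eq_degree, hG w]
    rw [h1]
    by_cases h3 : k w = 1
    · simp [h3]
    · simp [h3, h2]
  have hin : ∀ u ∈ X ∩ O, 3 ≤ ∑ w ∈ Z, c w u := by
    intro u hu'
    obtain ⟨huX, hu⟩ := Finset.mem_inter.1 hu'
    rw [hX, Finset.mem_biUnion] at huX
    obtain ⟨q, hq, huq⟩ := huX
    have hu1 : f u = 1 := by
      simpa [hO] using hu
    obtain ⟨v, hv, hv1, hvm⟩ := hL q (hPf q hq).1 (hPf q hq).2 u huq hu1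
    rw [hsumA _ hvm] at hv1
    have hc1 : (nb G v ∩ O).card = 1 := by exact_mod_cast hv1
    have huv : u ∈ nb G v ∩ O := Finset.mem_inter.2 ⟨mem_nb_comm.1 hv, hu⟩
    have heq : nb G v ∩ O = {u} := by
      obtain ⟨a, ha⟩ := Finset.card_eq_one.1 hc1
      rw [ha] at huv ⊢
      rw [Finset.mem_singleton] at huv
      rw [huv]
    by_cases hvu : v = u
    · subst hvu
      have h1 : G.neighborFinset v ⊆ Z := by
        intro x hx
        rcases hval x (hvm x (Finset.mem_insert_of_mem hx)) with h | h
        · simp [hZ, h]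
        · have hxO : x ∈ O := by simp [hO, h]
          have hx2 : x ∈ nb G v ∩ O :=
            Finset.mem_inter.2 ⟨Finset.mem_insert_of_mem hx, hxO⟩
          rw [heq, Finset.mem_singleton] at hx2
          subst hx2
          simp at hx
      calc 3 = ∑ _w ∈ G.neighborFinset v, 1 := by
            rw [Finset.sum_const, SimpleGraph.card_neighborFinset_eq_degree, hG v]; rfl
        _ ≤ ∑ w ∈ G.neighborFinset v, c w v := by
            apply Finset.sum_le_sum
            intro w hw
            have : v ∈ G.neighborFinset w := by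
              rw [SimpleGraph.mem_neighborFinset] at hw ⊢
              exact hw.symm
            simp only [c, this, if_true]
            split_ifs <;> norm_num
        _ ≤ ∑ w ∈ Z, c w v := Finset.sum_le_sum_of_subset h1
    · have hvZ : v ∈ Z := by
        rcases hval v (hvm v (self_mem_nb v)) with h | h
        · simp [hZ, h]
        · exfalso
          have : v ∈ nb G v ∩ O := Finset.mem_inter.2 ⟨self_mem_nb v, by simp [hO, h]⟩
          rw [heq, Finset.mem_singleton] at this
          exact hvu this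
      have hadj : u ∈ G.neighborFinset v := by
        have := mem_nb_comm.1 hv
        rw [mem_nb] at this
        rcases this with h | h
        · exact absurd h.symm hvu
        · rw [SimpleGraph.mem_neighborFinset]; exact h
      have hk : k v = 1 := by
        have : G.neighborFinset v ∩ O = {u} := by
          apply Finset.Subset.antisymm
          · intro x hx
            rw [Finset.mem_inter] at hx
            rw [← heq]
            exact Finset.mem_inter.2 ⟨Finset.mem_insert_of_mem hx.1, hx.2⟩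
          · intro x hx
            rw [Finset.mem_singleton] at hx
            subst hx
            exact Finset.mem_inter.2 ⟨hadj, hu⟩
        simp only [k, this, Finset.card_singleton]
      calc 3 = c v u := by simp only [c, hadj, hk, if_true]
        _ ≤ ∑ w ∈ Z, c w u :=
            Finset.single_le_sum (f := fun w => c w u) (fun _ _ => Nat.zero_le _) hvZ
  have hdc : 3 * (X ∩ O).card ≤ 3 * Z.card := by
    calc 3 * (X ∩ O).card = ∑ _u ∈ X ∩ O, 3 := by simp [mul_comm]
      _ ≤ ∑ u ∈ X ∩ O, ∑ w ∈ Z, c w u := Finset.sum_le_sum hin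
      _ = ∑ w ∈ Z, ∑ u ∈ X ∩ O, c w u := Finset.sum_comm
      _ ≤ ∑ w ∈ Z, ∑ u ∈ O, c w u :=
          Finset.sum_le_sum (fun w _ => Finset.sum_le_sum_of_subset Finset.inter_subset_right)
      _ ≤ ∑ _w ∈ Z, 3 := Finset.sum_le_sum (fun w _ => hout w)
      _ = 3 * Z.card := by simp [mul_comm]
  have hXle : X.card ≤ (X ∩ Z).card + (X ∩ O).card := by
    have h1 : X ⊆ (X ∩ Z) ∪ (X ∩ O) := by
      intro x hx
      rcases hval x (hXval x hx) with h | h
      · exact Finset.mem_union_left _ (Finset.mem_inter.2 ⟨hx, by simp [hZ, h]⟩)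
      · exact Finset.mem_union_right _ (Finset.mem_inter.2 ⟨hx, by simp [hO, h]⟩)
    exact (Finset.card_le_card h1).trans (Finset.card_union_le _ _)
  have hXZ : (X ∩ Z).card ≤ Z.card := Finset.card_le_card Finset.inter_subset_right
  rw [hw, weight_sg]
  omega

/-- Every minimal minus dominating function of a cubic graph has weight at most `n - 3`. -/
lemma weight_le_sub_three [Nonempty V] (hG : Cubic G) {f : V → ℤ}
    (hf : IsMinimal (MinusDom G) f) : weight f ≤ (Fintype.card V : ℤ) - 3 := by
  have hle1 : ∀ x, f x ≤ 1 := by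
    intro x
    rcases hf.1.1 x with h | h | h <;> omega
  obtain ⟨v0⟩ := ‹Nonempty V›
  have hex : ∃ u, f u ≠ -1 := by
    by_contra hc
    push Not at hc
    have h1 := hf.1.2 v0
    rw [Finset.sum_congr rfl (fun x _ => hc x), Finset.sum_const, card_nb hG] at h1
    norm_num at h1
  obtain ⟨u, hu⟩ := hex
  obtain ⟨v, _, hv1⟩ := exists_tight hf hu
  have h2 : weight f = ∑ x ∈ nb G v, f x + ∑ x ∈ (nb G v)ᶜ, f x :=
    (Finset.sum_add_sum_compl _ _).symm
  have h3 : ∑ x ∈ (nb G v)ᶜ, f x ≤ ((nb G v)ᶜ.card : ℤ) := by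
    calc ∑ x ∈ (nb G v)ᶜ, f x ≤ ∑ _x ∈ (nb G v)ᶜ, (1 : ℤ) :=
          Finset.sum_le_sum (fun x _ => hle1 x)
      _ = ((nb G v)ᶜ.card : ℤ) := by simp
  have h4 : (nb G v)ᶜ.card + (nb G v).card = Fintype.card V := by
    rw [add_comm]; exact Finset.card_add_card_compl _
  rw [card_nb hG] at h4
  omega

end Lemmas

section Petersen

/-- Adjacency of the Petersen graph. -/
def pAdj (a b : Fin 10) : Bool :=
  ([(0, 1), (1, 2), (2, 3), (3, 4), (4, 0), (5, 7), (7, 9), (9, 6), (6, 8), (8, 5),
    (0, 5), (1, 6), (2, 7), (3, 8), (4, 9)] : List (Fin 10 × Fin 10)).any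
    (fun e => (e.1 == a && e.2 == b) || (e.1 == b && e.2 == a))

/-- The Petersen graph. -/
def petersen : SimpleGraph (Fin 10) where
  Adj a b := pAdj a b = true
  symm := ⟨by decide⟩
  loopless := ⟨by decide⟩

instance : DecidableRel petersen.Adj := fun a b => inferInstanceAs (Decidable (pAdj a b = true))

lemma petersen_cubic : Cubic petersen := by
  unfold Cubic
  decide

lemma petersen_signed : IsMinimal (SignedDom petersen) (sg ({0} : Finset (Fin 10))) := by
  apply sg_minimal petersen_cubic
  · intro v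
    calc (nb petersen v ∩ {0}).card ≤ ({0} : Finset (Fin 10)).card :=
          Finset.card_le_card Finset.inter_subset_right
      _ = 1 := by simp
  · decide

end Petersen

/-- Partial answer to the comparison of `Γ⁻` and `Γ_s` on cubic graphs.

(1) criterion for a minimal minus dominating function `f` to be beaten by a minimal signed dominating
function; (2) in particular this is so for every `f` without the value `-1`; (3) and for every `f`
such that each vertex is within distance two of a vertex of value `-1`; (4) for the Petersen graph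
`Γ⁻ < Γ_s`. -/
theorem result :
    (∀ (V : Type) [Fintype V] [DecidableEq V] (G : SimpleGraph V) [DecidableRel G.Adj],
      Cubic G → ∀ f : V → ℤ, IsMinimal (MinusDom G) f →
      (∀ Q : Finset V, (∀ x, f x = -1 → x ∈ Q) → (∀ v, (nb G v ∩ Q).card ≤ 1) →
        (∀ u, u ∉ Q → ∃ v ∈ nb G u, ∃ q ∈ Q, q ∈ nb G v) →
        (∀ q ∈ Q, f q ≠ -1 → ∀ u ∈ nb G q, f u = 1 →
          ∃ v ∈ nb G u, (∑ x ∈ nb G v, f x = 1) ∧ ∀ x ∈ nb G v, f x ≠ -1) →
        ∃ h, IsMinimal (SignedDom G) h ∧ weight f ≤ weight h) ∧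
      ((∀ v, f v ≠ -1) → ∃ h, IsMinimal (SignedDom G) h ∧ weight f ≤ weight h) ∧
      ((∀ u, f u ≠ -1 → ∃ v ∈ nb G u, ∃ x ∈ nb G v, f x = -1) →
        ∃ h, IsMinimal (SignedDom G) h ∧ weight f ≤ weight h)) ∧
    (Cubic petersen ∧
      ∃ h, IsMinimal (SignedDom petersen) h ∧
        ∀ f, IsMinimal (MinusDom petersen) f → weight f < weight h) := by
  refine ⟨?_, petersen_cubic, sg {0}, petersen_signed, ?_⟩
  · intro V _ _ G _ hG f hf
    refine ⟨?_, ?_, ?_⟩
    · intro Q h1 h2 h3 h4
      exact ⟨sg Q, sg_minimal hG Q h2 h3, crit hG hf Q h1 h2 h4⟩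
    · intro h0
      obtain ⟨Q, h2, h3⟩ := exists_max_packing G
      refine ⟨sg Q, sg_minimal hG Q h2 h3, crit hG hf Q (fun x hx => absurd hx (h0 x)) h2 ?_⟩
      intro q _ _ u _ hu
      obtain ⟨v, hv, hv1⟩ := exists_tight hf (h0 u)
      exact ⟨v, hv, hv1, fun x _ => h0 x⟩
    · intro h0
      set M : Finset V := Finset.univ.filter (fun v => f v = -1) with hM
      have hMm : ∀ x, x ∈ M ↔ f x = -1 := by intro x; simp [hM]
      have hpk : ∀ v, (nb G v ∩ M).card ≤ 1 := by
        intro v
        by_contra hc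
        push Not at hc
        have h1 : ∑ x ∈ nb G v, f x ≤ ∑ x ∈ nb G v, sg M x := by
          apply Finset.sum_le_sum
          intro x _
          rcases hf.1.1 x with h | h | h
          · have : x ∈ M := (hMm x).2 h
            simp [sg, this, h]
          · have : x ∉ M := fun hx => by have := (hMm x).1 hx; omega
            simp [sg, this, h]
          · have : x ∉ M := fun hx => by have := (hMm x).1 hx; omega
            simp [sg, this, h]
        rw [sum_sg, card_nb hG] at h1
        have h2 := hf.1.2 v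
        omega
      refine ⟨sg M, sg_minimal hG M hpk ?_, crit hG hf M (fun x hx => (hMm x).2 hx) hpk ?_⟩
      · intro u hu
        obtain ⟨v, hv, x, hx, hx1⟩ := h0 u (fun h => hu ((hMm u).2 h))
        exact ⟨v, hv, x, (hMm x).2 hx1, hx⟩
      · intro q hq hq1
        exact absurd ((hMm q).1 hq) hq1
  · intro f hf
    have h1 := weight_le_sub_three petersen_cubic hf
    have h2 : weight (sg ({0} : Finset (Fin 10))) = 8 := by
      rw [weight_sg]; simp
    rw [h2]
    simp only [Fintype.card_fin] at h1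
    omega

end Pool.Agent.Results.MP_ef18bd_co.CubicMinusSigned
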